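import Pool.Agent.Helper1.RK.EndF

/-!
# MP_de00bc_nt: over finitely generated fields the question has a negative answer for every `r ≥ 3`

Over the field `K = F(j)(x_1, ..., x_r, t)` (`F` any field of characteristic `0`, for example `ℚ`) the
cubics `g_i = f(x_i) f(X)`, `f = X ^ 3 + j X + j`, are admissible; any two of them have a good pair, but
for `r ≥ 3` they have no good tuple.
-/

set_option autoImplicit false

namespace Pool.Agent.Results.MP_de00bc_nt.FunctionFieldFailure

open Polynomial

/-- a cubic (degree exactly 3) with three distinct roots in an algebraic closure -/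
def Elliptic {K : Type} [Field K] (f : K[X]) : Prop := f.natDegree = 3 ∧ f.Separable

/-- the family is admissible over `K`: all curves `y ^ 2 = f_i(x)` are elliptic and have infinitely
many points with coordinates in `K` -/
def Admissible {K : Type} [Field K] {r : ℕ} (f : Fin r → K[X]) : Prop :=
  ∀ i, Elliptic (f i) ∧ {p : K × K | p.2 ^ 2 = (f i).eval p.1}.Infinite

/-- all products of the values `f_i(u_i)`, `f_j(u_j)`, `i ≠ j`, are squares of nonzero elements -/
def SquareProducts {K : Type} [Field K] {r : ℕ} (f : Fin r → K[X]) (u : Fin r → K) : Prop :=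
  ∀ i j, i ≠ j → (f i).eval (u i) * (f j).eval (u j) ≠ 0 ∧
    IsSquare ((f i).eval (u i) * (f j).eval (u j))

/-- all values `f_i(u_i)` are squares -/
def AllSquares {K : Type} [Field K] {r : ℕ} (f : Fin r → K[X]) (u : Fin r → K) : Prop :=
  ∀ i, IsSquare ((f i).eval (u i))

/-- `u` is a good tuple for the family over `K` -/
def IsGood {K : Type} [Field K] {r : ℕ} (f : Fin r → K[X]) (u : Fin r → K) : Prop :=
  (∀ i, ¬ IsSquare ((f i).eval (u i))) ∧ SquareProducts f u

/-- the pair `f_i, f_k` -/
noncomputable def pairOf {K : Type} [Field K] {r : ℕ} (f : Fin r → K[X]) (i k : Fin r) :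
    Fin 2 → K[X] := ![f i, f k]

/-- the cubic `X ^ 3 + j X + j` -/
noncomputable def base {K : Type} [Field K] (j : K) : K[X] := X ^ 3 + C j * X + C j

/-- the polynomial `f(x) f(X)` -/
noncomputable def twist {K : Type} [Field K] (f : K[X]) (x : K) : K[X] := C (f.eval x) * f

/-- the field `F(j)(x_1, ..., x_r, t : t ∈ T)` of rational functions in independent variables; here
`F(j) = RatFunc F` -/
abbrev FieldK (F : Type) [Field F] (r : ℕ) (T : Type) : Type :=
  FractionRing (MvPolynomial (Fin r ⊕ T) (RatFunc F))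

/-- the variable `x_i` -/
noncomputable def varX (F : Type) [Field F] {r : ℕ} (T : Type) (i : Fin r) : FieldK F r T :=
  algebraMap (MvPolynomial (Fin r ⊕ T) (RatFunc F)) (FieldK F r T) (MvPolynomial.X (Sum.inl i))

/-- the variable `j` -/
noncomputable def varJ (F : Type) [Field F] (r : ℕ) (T : Type) : FieldK F r T :=
  algebraMap (MvPolynomial (Fin r ⊕ T) (RatFunc F)) (FieldK F r T) (MvPolynomial.C RatFunc.X)

/-- the cubics `g_i = f(x_i) f(X)`, `f = X ^ 3 + j X + j` -/
noncomputable def family (F : Type) [Field F] (r : ℕ) (T : Type) (i : Fin r) : (FieldK F r T)[X] :=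
  twist (base (varJ F r T)) (varX F T i)

theorem eval_base (F : Type) [Field F] (r : ℕ) (T : Type) (x : FieldK F r T) :
    (base (varJ F r T)).eval x = Pool.Agent.Helper1.RK.gj F (Fin r ⊕ T) x := by
  simp [base, Pool.Agent.Helper1.RK.gj, varJ, Pool.Agent.Helper1.RK.rc]

theorem eval_family (F : Type) [Field F] (r : ℕ) (T : Type) (i : Fin r) (x : FieldK F r T) :
    (family F r T i).eval x =
      Pool.Agent.Helper1.RK.gj F (Fin r ⊕ T) (Pool.Agent.Helper1.RK.rv (RatFunc F) (Sum.inl i)) *
        Pool.Agent.Helper1.RK.gj F (Fin r ⊕ T) x := by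
  unfold family twist
  rw [eval_mul, eval_C, eval_base, eval_base]
  rfl

/-- Over `K = F(j)(x_1, ..., x_r, T)` the family `g_1, ..., g_r` is admissible; if `T` is not empty, any
two of its members have a good pair; if `r ≥ 3`, then whenever all products `g_i(u_i) g_j(u_j)` are
nonzero squares, all `g_i(u_i)` are squares, so there is no good tuple. -/
theorem result (F : Type) [Field F] [CharZero F] (r : ℕ) (T : Type) :
    Admissible (family F r T) ∧
    (Nonempty T → ∀ i k : Fin r, ∃ u : Fin 2 → FieldK F r T, IsGood (pairOf (family F r T) i k) u) ∧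
    (3 ≤ r → (∀ u : Fin r → FieldK F r T, SquareProducts (family F r T) u →
        AllSquares (family F r T) u) ∧
      ¬ ∃ u : Fin r → FieldK F r T, IsGood (family F r T) u) := by
  have key : 3 ≤ r → ∀ u : Fin r → FieldK F r T, SquareProducts (family F r T) u →
      AllSquares (family F r T) u := by
    intro hr u hu i
    show IsSquare ((family F r T i).eval (u i))
    rw [eval_family]
    refine Pool.Agent.Helper1.RK.hUJV F r T hr u (fun m n hmn => ?_) i
    have h := hu m n hmn
    rw [eval_family, eval_family] at h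
    exact h
  refine ⟨fun i => ⟨?_, ?_⟩, ?_, fun hr => ⟨key hr, ?_⟩⟩
  · have h := Pool.Agent.Helper1.RK.sep_cubic ((base (varJ F r T)).eval (varX F T i)) (varJ F r T)
      (varJ F r T) (by
        rw [eval_base]
        exact Pool.Agent.Helper1.RK.gj_ne F _ (Sum.inl i)) (Pool.Agent.Helper1.RK.disc_ne F _)
    exact h
  · have h := Pool.Agent.Helper1.RK.hADI (RatFunc F) RatFunc.X RatFunc.X (by
      intro h0
      apply Pool.Agent.Helper1.RK.disc_ne F (Fin r ⊕ T)
      have h1 : Pool.Agent.Helper1.RK.rc (Fin r ⊕ T)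
          (4 * (RatFunc.X : RatFunc F) ^ 3 + 27 * (RatFunc.X : RatFunc F) ^ 2) = 0 := by
        rw [h0]
        simp [Pool.Agent.Helper1.RK.rc]
      rw [← h1]
      unfold Pool.Agent.Helper1.RK.rc
      have e4 : (MvPolynomial.C (4 : RatFunc F) : MvPolynomial (Fin r ⊕ T) (RatFunc F)) = 4 :=
        map_ofNat _ 4
      have e27 : (MvPolynomial.C (27 : RatFunc F) : MvPolynomial (Fin r ⊕ T) (RatFunc F)) = 27 :=
        map_ofNat _ 27
      rw [map_add, map_mul, map_mul, map_pow, map_pow, e4, e27, map_add, map_mul, map_mul, map_pow,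
        map_pow, map_ofNat, map_ofNat]) (Fin r ⊕ T) (Sum.inl i)
    have h2 : {p : FieldK F r T × FieldK F r T | p.2 ^ 2 = (family F r T i).eval p.1} =
        {p : FieldK F r T × FieldK F r T | p.2 ^ 2 =
          (Pool.Agent.Helper1.RK.rv (RatFunc F) (Sum.inl i : Fin r ⊕ T) ^ 3 +
            Pool.Agent.Helper1.RK.rc (Fin r ⊕ T) (RatFunc.X : RatFunc F) *
              Pool.Agent.Helper1.RK.rv (RatFunc F) (Sum.inl i : Fin r ⊕ T) +
            Pool.Agent.Helper1.RK.rc (Fin r ⊕ T) (RatFunc.X : RatFunc F)) *
          (p.1 ^ 3 + Pool.Agent.Helper1.RK.rc (Fin r ⊕ T) (RatFunc.X : RatFunc F) * p.1 +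
            Pool.Agent.Helper1.RK.rc (Fin r ⊕ T) (RatFunc.X : RatFunc F))} := by
      ext p
      rw [Set.mem_setOf_eq, Set.mem_setOf_eq, eval_family]
      rfl
    rw [h2]
    exact h
  · rintro ⟨t⟩ i j
    obtain ⟨u, v, h1, h2, h3, h4⟩ := Pool.Agent.Helper1.RK.pair F r T t i j
    have e0 : (family F r T i).eval u = Pool.Agent.Helper1.RK.gj F (Fin r ⊕ T)
        (Pool.Agent.Helper1.RK.rv (RatFunc F) (Sum.inl i)) *
          Pool.Agent.Helper1.RK.gj F (Fin r ⊕ T) u := eval_family F r T i u
    have e1 : (family F r T j).eval v = Pool.Agent.Helper1.RK.gj F (Fin r ⊕ T)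
        (Pool.Agent.Helper1.RK.rv (RatFunc F) (Sum.inl j)) *
          Pool.Agent.Helper1.RK.gj F (Fin r ⊕ T) v := eval_family F r T j v
    rw [← e0] at h1 h3 h4
    rw [← e1] at h2 h3 h4
    refine ⟨![u, v], ?_, ?_⟩
    · intro m
      fin_cases m
      · exact h1
      · exact h2
    · intro m n hmn
      fin_cases m <;> fin_cases n
      · exact absurd rfl hmn
      · exact ⟨h3, h4⟩
      · exact ⟨by
          show (family F r T j).eval v * (family F r T i).eval u ≠ 0
          rw [mul_comm]
          exact h3, by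
          show IsSquare ((family F r T j).eval v * (family F r T i).eval u)
          rw [mul_comm]
          exact h4⟩
      · exact absurd rfl hmn
  · rintro ⟨u, hu1, hu2⟩
    exact hu1 ⟨0, by omega⟩ (key hr u hu2 ⟨0, by omega⟩)

end Pool.Agent.Results.MP_de00bc_nt.FunctionFieldFailure
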