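import Pool.Agent.Helper1.RK.All

/-!
# MP_de00bc_nt: generic cubics have no parametric good tuple for `r ≥ 3`

For `r = 2` the problem is solved by a parametric family: for all admissible cubics there are
nonconstant `u_1, u_2 ∈ K(t)` with `f_1(u_1) f_2(u_2)` a square.  Here we prove that for `r ≥ 3` the
generic cubics `x ^ 3 + a_i x + b_i` have no such family over their field of coefficients.
-/

set_option autoImplicit false

namespace Pool.Agent.Results.MP_de00bc_nt.GenericCubics

/-- the value of `x ^ 3 + a x + b` at the rational function `u ∈ K(t)` -/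
noncomputable def cubic {K : Type} [Field K] (a b : K) (u : RatFunc K) : RatFunc K :=
  u ^ 3 + RatFunc.C a * u + RatFunc.C b

/-- the rational function `u` is a constant, an element of `K` -/
def IsConst {K : Type} [Field K] (u : RatFunc K) : Prop := ∃ c : K, u = RatFunc.C c

/-- all products of the values of `f_i = x ^ 3 + a_i x + b_i` at `u_i` are nonzero squares in `K(t)` -/
def SquareProducts {K : Type} [Field K] {r : ℕ} (a b : Fin r → K) (u : Fin r → RatFunc K) : Prop :=
  ∀ i j, i ≠ j → cubic (a i) (b i) (u i) * cubic (a j) (b j) (u j) ≠ 0 ∧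
    IsSquare (cubic (a i) (b i) (u i) * cubic (a j) (b j) (u j))

/-- the field `F(a_1, ..., a_r)` of rational functions in `r` variables -/
abbrev CoeffField (F : Type) [Field F] (r : ℕ) : Type := FractionRing (MvPolynomial (Fin r) F)

/-- the variable `a_i` -/
noncomputable def coeffVar (F : Type) [Field F] {r : ℕ} (i : Fin r) : CoeffField F r :=
  algebraMap (MvPolynomial (Fin r) F) (CoeffField F r) (MvPolynomial.X i)

/-- an element of `F` as a constant of `F(a_1, ..., a_r)` -/
noncomputable def coeffConst {F : Type} [Field F] (r : ℕ) (c : F) : CoeffField F r :=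
  algebraMap (MvPolynomial (Fin r) F) (CoeffField F r) (MvPolynomial.C c)

theorem result :
    (∀ (F : Type) [Field F] [CharZero F] (r : ℕ) (b : Fin r → F), 3 ≤ r → (∀ i, b i ≠ 0) →
      ∀ u : Fin r → RatFunc (CoeffField F r),
        SquareProducts (fun i => coeffVar F i) (fun i => coeffConst r (b i)) u → ∀ i, IsConst (u i)) ∧
    (∀ (K : Type) [Field K] [CharZero K] (a b : Fin 2 → K), (∀ i, a i ≠ 0) → (∀ i, b i ≠ 0) →
      (∀ i, 4 * a i ^ 3 + 27 * b i ^ 2 ≠ 0) →
      ∃ u : Fin 2 → RatFunc K, (∀ i, ¬ IsConst (u i)) ∧ SquareProducts a b u ∧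
        ∀ i, ¬ IsSquare (cubic (a i) (b i) (u i))) := by
  refine ⟨fun F _ _ r b hr hb u hu i => ?_, fun K _ _ a b ha hb hd => ?_⟩
  · have hnz : ∀ i, Pool.Agent.Helper1.RK.gcu b i (u i) ≠ 0 := by
      intro i h0
      obtain ⟨j, hj⟩ : ∃ j : Fin r, i ≠ j := by
        by_cases h : i = ⟨0, by omega⟩
        · exact ⟨⟨1, by omega⟩, by rw [h]; simp [Fin.ext_iff]⟩
        · exact ⟨⟨0, by omega⟩, h⟩
      refine (hu i j hj).1 ?_
      have h1 : cubic (coeffVar F i) (coeffConst r (b i)) (u i) = 0 := h0
      rw [h1, zero_mul]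
    refine Pool.Agent.Helper1.RK.hT3 F r b hr hb u hnz (fun i j => ?_) i
    by_cases hij : i = j
    · subst hij
      exact ⟨_, rfl⟩
    · exact (hu i j hij).2
  · obtain ⟨u, h1, h2, h3, h4⟩ := Pool.Agent.Helper1.RK.hTWO K a b ha hb hd
    exact ⟨u, h1, fun i j _ => ⟨mul_ne_zero (h2 i) (h2 j), h3 i j⟩, h4⟩

end Pool.Agent.Results.MP_de00bc_nt.GenericCubics
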