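import Pool.Agent.Helper1.RK.All

/-!
# MP_de00bc_nt: the exact geometric threshold for parametric good tuples of Legendre cubics

For `r ≤ 3` all Legendre cubics `x (x - 1) (x - l_i)` have a nonconstant parametric family of good
tuples.  For `r ≥ 4` and algebraically independent `l_i` there is none, even over an algebraically
closed field; and for every bound on the degree there is none for almost all parameters, in
particular for suitable admissible families over `ℚ`.
-/

set_option autoImplicit false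

namespace Pool.Agent.Results.MP_de00bc_nt.LegendreThreshold

/-- the value of `x (x - 1) (x - l)` at the rational function `u ∈ K(t)` -/
noncomputable def legendre {K : Type} [Field K] (l : K) (u : RatFunc K) : RatFunc K :=
  u * (u - 1) * (u - RatFunc.C l)

/-- the rational function `u` is a constant, an element of `K` -/
def IsConst {K : Type} [Field K] (u : RatFunc K) : Prop := ∃ c : K, u = RatFunc.C c

/-- all products of the values of `f_i = x (x - 1) (x - l_i)` at `u_i` are nonzero squares in `K(t)` -/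
def SquareProducts {K : Type} [Field K] {r : ℕ} (l : Fin r → K) (u : Fin r → RatFunc K) : Prop :=
  ∀ i j, i ≠ j → legendre (l i) (u i) * legendre (l j) (u j) ≠ 0 ∧
    IsSquare (legendre (l i) (u i) * legendre (l j) (u j))

/-- the degree of a rational function: the larger of the degrees of numerator and denominator -/
noncomputable def degree {K : Type} [Field K] (u : RatFunc K) : ℕ :=
  max u.num.natDegree u.denom.natDegree

lemma ne_zero_of {K : Type} [Field K] {r : ℕ} (hr : 4 ≤ r) (l : Fin r → K) (u : Fin r → RatFunc K)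
    (hu : SquareProducts l u) (i : Fin r) : Pool.Agent.Helper1.RK.leg (l i) (u i) ≠ 0 := by
  intro h0
  obtain ⟨j, hj⟩ : ∃ j : Fin r, i ≠ j := by
    by_cases h : i = ⟨0, by omega⟩
    · exact ⟨⟨1, by omega⟩, by rw [h]; simp [Fin.ext_iff]⟩
    · exact ⟨⟨0, by omega⟩, h⟩
  refine (hu i j hj).1 ?_
  have h1 : legendre (l i) (u i) = 0 := h0
  rw [h1, zero_mul]

lemma sq_of {K : Type} [Field K] {r : ℕ} (l : Fin r → K) (u : Fin r → RatFunc K)
    (hu : SquareProducts l u) (i j : Fin r) :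
    IsSquare (Pool.Agent.Helper1.RK.leg (l i) (u i) * Pool.Agent.Helper1.RK.leg (l j) (u j)) := by
  by_cases hij : i = j
  · subst hij
    exact ⟨_, rfl⟩
  · exact (hu i j hij).2

theorem result :
    (∀ (L : Type) [Field L] [CharZero L] [IsAlgClosed L] (r : ℕ) (l : Fin r → L), 4 ≤ r →
      AlgebraicIndependent ℚ l →
      ∀ u : Fin r → RatFunc L, SquareProducts l u → ∀ i, IsConst (u i)) ∧
    (∀ (k : Type) [Field k] [CharZero k] (l : Fin 3 → k), (∀ i, l i ≠ 0 ∧ l i ≠ 1) →
      ∃ s : RatFunc k, ¬ IsConst s ∧ SquareProducts l (fun _ => s) ∧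
        ∀ i, ¬ IsSquare (legendre (l i) s)) ∧
    (∀ r N : ℕ, 4 ≤ r → ∃ P : MvPolynomial (Fin r) ℚ, P ≠ 0 ∧
      ∀ l : Fin r → ℂ, MvPolynomial.aeval l P ≠ 0 →
      ∀ u : Fin r → RatFunc ℂ, (∀ i, degree (u i) ≤ N) → SquareProducts l u → ∀ i, IsConst (u i)) ∧
    (∀ r N : ℕ, 4 ≤ r → ∃ l : Fin r → ℚ,
      (∀ i, l i ≠ 0 ∧ l i ≠ 1 ∧
        {p : ℚ × ℚ | p.2 ^ 2 = p.1 * (p.1 - 1) * (p.1 - l i)}.Infinite) ∧
      ∀ u : Fin r → RatFunc ℂ, (∀ i, degree (u i) ≤ N) → SquareProducts (fun i => (l i : ℂ)) u →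
        ∀ i, IsConst (u i)) := by
  refine ⟨fun L _ _ _ r l hr hl u hu i => ?_, fun k _ _ l hl => ?_, fun r N hr => ?_,
    fun r N hr => ?_⟩
  · exact Pool.Agent.Helper1.RK.hT4 L r l u hr hl (ne_zero_of hr l u hu) (sq_of l u hu) i
  · obtain ⟨s, h1, h2, h3, h4⟩ := Pool.Agent.Helper1.RK.hSTA k l (fun i => (hl i).1) fun i => (hl i).2
    exact ⟨s, h1, fun i j _ => ⟨mul_ne_zero (h2 i) (h2 j), h3 i j⟩, h4⟩
  · obtain ⟨P, hP, h⟩ := Pool.Agent.Helper1.RK.hULT r N hr
    exact ⟨P, hP, fun l hl u hd hu => h l hl u hd (ne_zero_of hr l u hu) (sq_of l u hu)⟩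
  · obtain ⟨l, h1, h2⟩ := Pool.Agent.Helper1.RK.hBDQ r N hr
    exact ⟨l, h1, fun u hd hu => h2 u hd (ne_zero_of hr _ u hu) (sq_of _ u hu)⟩

end Pool.Agent.Results.MP_de00bc_nt.LegendreThreshold
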