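import Pool.Agent.Helper1.RK.AllE

/-!
# MP_de00bc_nt: no universal formula for good tuples when `r ≥ 3`

For `r = 2` there is a formula which computes a good pair from the coefficients of the two cubics.
For `r ≥ 3` there is no formula for good tuples in the coefficients of the cubics, the coordinates of
a given point on each curve and further parameters.
-/

set_option autoImplicit false

namespace Pool.Agent.Results.MP_de00bc_nt.NoUniversalFormula

/-- the field of rational functions over `F` in the variables indexed by `I` -/
abbrev RatField (F : Type) [Field F] (I : Type) : Type := FractionRing (MvPolynomial I F)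

/-- the variable with index `i` -/
noncomputable def var (F : Type) [Field F] {I : Type} (i : I) : RatField F I :=
  algebraMap (MvPolynomial I F) (RatField F I) (MvPolynomial.X i)

/-- the element `c` of `F` as a rational function -/
noncomputable def const {F : Type} [Field F] (I : Type) (c : F) : RatField F I :=
  algebraMap (MvPolynomial I F) (RatField F I) (MvPolynomial.C c)

/-- the value of `x ^ 3 + a x + b` -/
def cubic {K : Type} [Field K] (a b x : K) : K := x ^ 3 + a * x + b

/-- all products `d_i d_j`, `i ≠ j`, are nonzero squares -/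
def SquareProducts {K : Type} [Field K] {r : ℕ} (d : Fin r → K) : Prop :=
  ∀ i j, i ≠ j → d i * d j ≠ 0 ∧ IsSquare (d i * d j)

/-- the field `F(a_i, x_i, y_i, t)` with `i = 1, ..., r` and further independent variables `t ∈ T` -/
abbrev UniversalField (F : Type) [Field F] (r : ℕ) (T : Type) : Type :=
  RatField F ((Fin r × Fin 3) ⊕ T)

/-- the coefficient `a_i` -/
noncomputable def coeffA (F : Type) [Field F] {r : ℕ} (T : Type) (i : Fin r) :
    UniversalField F r T := var F (Sum.inl (i, 0))

/-- the abscissa `x_i` -/
noncomputable def pointX (F : Type) [Field F] {r : ℕ} (T : Type) (i : Fin r) :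
    UniversalField F r T := var F (Sum.inl (i, 1))

/-- the ordinate `y_i` -/
noncomputable def pointY (F : Type) [Field F] {r : ℕ} (T : Type) (i : Fin r) :
    UniversalField F r T := var F (Sum.inl (i, 2))

/-- the coefficient `b_i`, so that `(x_i, y_i)` lies on `y ^ 2 = x ^ 3 + a_i x + b_i` -/
noncomputable def coeffB (F : Type) [Field F] {r : ℕ} (T : Type) (i : Fin r) :
    UniversalField F r T :=
  pointY F T i ^ 2 - pointX F T i ^ 3 - coeffA F T i * pointX F T i

theorem result :
    (∀ (F : Type) [Field F] [CharZero F] (r : ℕ) (T : Type), 3 ≤ r →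
      ∀ u : Fin r → UniversalField F r T,
        SquareProducts (fun i => cubic (coeffA F T i) (coeffB F T i) (u i)) →
        ∀ i, ∃ c : F, c ≠ 0 ∧
          IsSquare (const _ c * cubic (coeffA F T i) (coeffB F T i) (u i))) ∧
    (∀ (F : Type) [Field F] [CharZero F] (r : ℕ) (T : Type) (a b : Fin r → F), 3 ≤ r →
      (∀ i, 4 * a i ^ 3 + 27 * b i ^ 2 ≠ 0) →
      ∀ u : Fin r → RatField F (Fin r ⊕ T),
        SquareProducts (fun i => cubic (const _ (a i)) (const _ (b i)) (var F (Sum.inl i)) *
          cubic (const _ (a i)) (const _ (b i)) (u i)) →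
        ∀ i, ∃ c : F, c ≠ 0 ∧
          IsSquare (const _ c * (cubic (const _ (a i)) (const _ (b i)) (var F (Sum.inl i)) *
            cubic (const _ (a i)) (const _ (b i)) (u i)))) := by
  refine ⟨fun F _ _ r T hr u hu i => ?_, fun F _ _ r T a b hr hd u hu i => ?_⟩
  · exact Pool.Agent.Helper1.RK.hUGN F r T hr u hu i
  · exact Pool.Agent.Helper1.RK.hUFX F r T a b hr hd u hu i

end Pool.Agent.Results.MP_de00bc_nt.NoUniversalFormula
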